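import Pool.Agent.H630R2.LR.M1

/-!
Log-rank for functions of few quadratic polynomials: linear algebra and characters over `F_2`.
-/

set_option autoImplicit false

namespace Pool.Agent.R111.LQ

open Finset Matrix

abbrev V (n : ℕ) := Fin n → ZMod 2

theorem z2 (a : ZMod 2) : a = 0 ∨ a = 1 := by
  revert a; decide

/-- the sign `(-1)^a` as an integer -/
def sgZ (a : ZMod 2) : ℤ := if a = 0 then 1 else -1

/-- the sign `(-1)^a` -/
noncomputable def sg (a : ZMod 2) : ℝ := (sgZ a : ℝ)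

theorem sgZ_zero : sgZ 0 = 1 := by decide
theorem sgZ_one : sgZ 1 = -1 := by decide
theorem sg_zero : sg 0 = 1 := by simp [sg, sgZ_zero]
theorem sg_one : sg 1 = -1 := by simp [sg, sgZ_one]

theorem sgZ_add : ∀ a b : ZMod 2, sgZ (a + b) = sgZ a * sgZ b := by decide

theorem sg_add (a b : ZMod 2) : sg (a + b) = sg a * sg b := by
  simp [sg, sgZ_add]

theorem sg_sq (a : ZMod 2) : sg a * sg a = 1 := by
  rcases z2 a with h | h <;> simp [h, sg_zero, sg_one]

theorem sg_sq' (a : ZMod 2) : sg a ^ 2 = 1 := by rw [sq, sg_sq]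

theorem abs_sg (a : ZMod 2) : |sg a| = 1 := by
  rcases z2 a with h | h <;> simp [h, sg_zero, sg_one]

theorem sum_sg_dot {n : ℕ} (v : V n) :
    ∑ x : V n, sg (x ⬝ᵥ v) = if v = 0 then (2 : ℝ) ^ n else 0 := by
  split_ifs with h
  · subst h
    simp [sg_zero, Fintype.card_fin, ZMod.card]
  · obtain ⟨i, hi⟩ : ∃ i, v i ≠ 0 := by
      by_contra hc
      push Not at hc
      exact h (funext hc)
    have hi1 : v i = 1 := (z2 (v i)).resolve_left hi
    have e : ∑ x : V n, sg (x ⬝ᵥ v) = ∑ x : V n, sg ((x + (Pi.single i 1 : V n)) ⬝ᵥ v) :=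
      (Equiv.sum_comp (Equiv.addRight (Pi.single i 1 : V n)) (fun x : V n => sg (x ⬝ᵥ v))).symm
    have e2 : ∀ x : V n, sg ((x + (Pi.single i 1 : V n)) ⬝ᵥ v) = - sg (x ⬝ᵥ v) := by
      intro x
      rw [add_dotProduct, sg_add, single_dotProduct, hi1, one_mul, sg_one]
      ring
    simp only [e2, sum_neg_distrib] at e
    linarith

/-- the kernel of `B` -/
def ker {n m : ℕ} (B : Matrix (Fin n) (Fin m) (ZMod 2)) : Finset (V m) :=
  univ.filter fun z => B *ᵥ z = 0

theorem sum_ind {n m : ℕ} (B : Matrix (Fin n) (Fin m) (ZMod 2)) (y : V m) (t : ℝ) :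
    ∑ y' : V m, (if B *ᵥ (y + y') = 0 then t else 0) = (ker B).card * t := by
  have e : ∑ y' : V m, (if B *ᵥ (y + y') = 0 then t else 0) =
      ∑ z : V m, (if B *ᵥ z = 0 then t else 0) :=
    Equiv.sum_comp (Equiv.addLeft y) (fun z : V m => if B *ᵥ z = 0 then t else 0)
  rw [e, ← sum_filter, sum_const, nsmul_eq_mul]
  rfl

theorem op_bound {n m : ℕ} (B : Matrix (Fin n) (Fin m) (ZMod 2)) (e : V m → ℝ) :
    ∑ x : V n, (∑ y, sg (x ⬝ᵥ (B *ᵥ y)) * e y) ^ 2 ≤
      2 ^ n * (ker B).card * ∑ y, e y ^ 2 := by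
  have h1 : ∑ x : V n, (∑ y, sg (x ⬝ᵥ (B *ᵥ y)) * e y) ^ 2 =
      ∑ y : V m, ∑ y' : V m, e y * e y' * (if B *ᵥ (y + y') = 0 then (2 : ℝ) ^ n else 0) := by
    have : ∀ x : V n, (∑ y, sg (x ⬝ᵥ (B *ᵥ y)) * e y) ^ 2 =
        ∑ y : V m, ∑ y' : V m, e y * e y' * sg (x ⬝ᵥ (B *ᵥ (y + y'))) := by
      intro x
      rw [sq, sum_mul_sum]
      refine sum_congr rfl fun y _ => sum_congr rfl fun y' _ => ?_
      rw [mulVec_add, dotProduct_add, sg_add]
      ring
    simp only [this]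
    rw [sum_comm]
    refine sum_congr rfl fun y _ => ?_
    rw [sum_comm]
    refine sum_congr rfl fun y' _ => ?_
    rw [← mul_sum, sum_sg_dot]
  have h2 : ∀ y y' : V m, e y * e y' * (if B *ᵥ (y + y') = 0 then (2 : ℝ) ^ n else 0) ≤
      (if B *ᵥ (y + y') = 0 then (2 : ℝ) ^ n * (e y ^ 2 / 2) else 0) +
      (if B *ᵥ (y' + y) = 0 then (2 : ℝ) ^ n * (e y' ^ 2 / 2) else 0) := by
    intro y y'
    rw [add_comm y' y]
    split_ifs with h
    · have : e y * e y' ≤ e y ^ 2 / 2 + e y' ^ 2 / 2 := by nlinarith [sq_nonneg (e y - e y')]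
      have h3 : (0 : ℝ) ≤ 2 ^ n := by positivity
      nlinarith
    · simp
  rw [h1]
  calc _ ≤ ∑ y : V m, ∑ y' : V m,
        ((if B *ᵥ (y + y') = 0 then (2 : ℝ) ^ n * (e y ^ 2 / 2) else 0) +
        (if B *ᵥ (y' + y) = 0 then (2 : ℝ) ^ n * (e y' ^ 2 / 2) else 0)) :=
        sum_le_sum fun y _ => sum_le_sum fun y' _ => h2 y y'
    _ = ∑ y : V m, ∑ y' : V m, (if B *ᵥ (y + y') = 0 then (2 : ℝ) ^ n * (e y ^ 2 / 2) else 0) +
        ∑ y' : V m, ∑ y : V m, (if B *ᵥ (y' + y) = 0 then (2 : ℝ) ^ n * (e y' ^ 2 / 2) else 0) := by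
        simp only [sum_add_distrib]
        congr 1
        exact sum_comm
    _ = 2 ^ n * (ker B).card * ∑ y, e y ^ 2 := by
        simp only [sum_ind]
        rw [mul_sum, ← sum_add_distrib]
        refine sum_congr rfl fun y _ => ?_
        ring

/-- rank-nullity -/
theorem card_ker {n m : ℕ} (B : Matrix (Fin n) (Fin m) (ZMod 2)) :
    (ker B).card * 2 ^ B.rank = 2 ^ m := by
  classical
  have h1 : Nat.card (LinearMap.ker B.mulVecLin) = (ker B).card := by
    rw [Nat.card_eq_fintype_card, ← Fintype.card_coe]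
    refine Fintype.card_congr (Equiv.subtypeEquivRight fun z => ?_)
    simp [ker]
  have h2 : Nat.card (LinearMap.ker B.mulVecLin) =
      2 ^ Module.finrank (ZMod 2) (LinearMap.ker B.mulVecLin) := by
    rw [Module.natCard_eq_pow_finrank (K := ZMod 2), Nat.card_zmod]
  have h3 := LinearMap.finrank_range_add_finrank_ker B.mulVecLin
  rw [Module.finrank_fintype_fun_eq_card, Fintype.card_fin] at h3
  rw [← h1, h2, ← pow_add]
  congr 1
  rw [Matrix.rank]
  omega

/-- the row vectors `x B` -/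
theorem card_rows {n m : ℕ} (B : Matrix (Fin n) (Fin m) (ZMod 2)) :
    Fintype.card (Set.range fun x : V n => x ᵥ* B) = 2 ^ B.rank := by
  classical
  have e : (Set.range fun x : V n => x ᵥ* B) = (LinearMap.range Bᵀ.mulVecLin : Set (V m)) := by
    ext z
    simp
  have h2 : Nat.card (LinearMap.range Bᵀ.mulVecLin) =
      2 ^ Module.finrank (ZMod 2) (LinearMap.range Bᵀ.mulVecLin) := by
    rw [Module.natCard_eq_pow_finrank (K := ZMod 2), Nat.card_zmod]
  rw [← Nat.card_eq_fintype_card]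
  have h3 : Nat.card (Set.range fun x : V n => x ᵥ* B) = Nat.card (LinearMap.range Bᵀ.mulVecLin) := by
    rw [e]; rfl
  rw [h3, h2]
  congr 1
  rw [← Matrix.rank_transpose]
  rfl

end Pool.Agent.R111.LQ
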