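import Pool.Agent.R111.LQ.Main2

/-!
Functions of `k` polynomials with bilinear mixed part: final form.
-/

set_option autoImplicit false

namespace Pool.Agent.R111.LQ

open Finset Matrix MvPolynomial

/-- the mixed part is bilinear -/
def Mixed {n m : ℕ} (P : MvPolynomial (Fin n ⊕ Fin m) (ZMod 2)) : Prop :=
  ∃ (a : (Fin n → ZMod 2) → ZMod 2) (b : (Fin m → ZMod 2) → ZMod 2)
    (B : Matrix (Fin n) (Fin m) (ZMod 2)),
    ∀ x y, eval (Sum.elim x y) P = a x + b y + x ⬝ᵥ (B *ᵥ y)

theorem Mixed.add {n m : ℕ} {P Q : MvPolynomial (Fin n ⊕ Fin m) (ZMod 2)} (hP : Mixed P)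
    (hQ : Mixed Q) : Mixed (P + Q) := by
  obtain ⟨a, b, B, h⟩ := hP
  obtain ⟨a', b', B', h'⟩ := hQ
  refine ⟨a + a', b + b', B + B', fun x y => ?_⟩
  rw [map_add, h, h', add_mulVec, dotProduct_add]
  simp only [Pi.add_apply]
  ring

theorem Mixed.zero {n m : ℕ} : Mixed (0 : MvPolynomial (Fin n ⊕ Fin m) (ZMod 2)) :=
  ⟨0, 0, 0, fun x y => by simp⟩

theorem Mixed.sum {n m : ℕ} {ι : Type*} (S : Finset ι)
    (f : ι → MvPolynomial (Fin n ⊕ Fin m) (ZMod 2)) (h : ∀ i ∈ S, Mixed (f i)) :
    Mixed (∑ i ∈ S, f i) := by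
  classical
  induction S using Finset.induction_on with
  | empty => simpa using Mixed.zero
  | insert i S hi ih =>
    rw [sum_insert hi]
    exact (h i (mem_insert_self _ _)).add (ih fun j hj => h j (mem_insert_of_mem hj))

/-- polynomials of degree at most two -/
theorem mixed_of_quadratic {n m : ℕ} (P : MvPolynomial (Fin n ⊕ Fin m) (ZMod 2))
    (hP : P.totalDegree ≤ 2) : Mixed P := by
  classical
  rw [P.as_sum]
  refine Mixed.sum _ _ fun s hs => ?_
  have hdeg : s.degree ≤ 2 := by
    have := le_totalDegree hs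
    exact this.trans hP
  set c := coeff s P
  by_cases hr : ∀ l, s (Sum.inr l) = 0
  · refine ⟨fun x => c * s.prod fun t e => (Sum.elim x (0 : Fin m → ZMod 2)) t ^ e, 0, 0,
      fun x y => ?_⟩
    rw [eval_monomial]
    simp only [Pi.zero_apply, add_zero, zero_mulVec, dotProduct_zero]
    congr 1
    refine Finsupp.prod_congr fun t ht => ?_
    rcases t with i | l
    · rfl
    · rw [hr l, pow_zero, pow_zero]
  · by_cases hl : ∀ i, s (Sum.inl i) = 0
    · refine ⟨0, fun y => c * s.prod fun t e => (Sum.elim (0 : Fin n → ZMod 2) y) t ^ e, 0,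
        fun x y => ?_⟩
      rw [eval_monomial]
      simp only [Pi.zero_apply, add_zero, zero_add, zero_mulVec, dotProduct_zero]
      congr 1
      refine Finsupp.prod_congr fun t ht => ?_
      rcases t with i | l
      · rw [hl i, pow_zero, pow_zero]
      · rfl
    · push Not at hr hl
      obtain ⟨l, hl'⟩ := hr
      obtain ⟨i, hi'⟩ := hl
      have hle : Finsupp.single (Sum.inl i) 1 + Finsupp.single (Sum.inr l) 1 ≤ s := by
        intro t
        rcases t with j | j
        · simp only [Finsupp.add_apply, Finsupp.single_apply, Sum.inl.injEq, reduceCtorEq,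
            if_false, add_zero]
          split_ifs with h
          · subst h; omega
          · exact Nat.zero_le _
        · simp only [Finsupp.add_apply, Finsupp.single_apply, Sum.inr.injEq, reduceCtorEq,
            if_false, zero_add]
          split_ifs with h
          · subst h; omega
          · exact Nat.zero_le _
      have hs2 : s = Finsupp.single (Sum.inl i) 1 + Finsupp.single (Sum.inr l) 1 := by
        have e1 := tsub_add_cancel_of_le hle
        have e2 : (s - (Finsupp.single (Sum.inl i) 1 + Finsupp.single (Sum.inr l) 1)).degree = 0 := by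
          have e3 := congrArg Finsupp.degree e1
          simp only [map_add, Finsupp.degree_single] at e3
          omega
        rw [Finsupp.degree_eq_zero_iff] at e2
        rw [← e1, e2, zero_add]
      refine ⟨0, 0, Matrix.of fun i' l' => if i' = i ∧ l' = l then c else 0, fun x y => ?_⟩
      rw [eval_monomial, hs2, Finsupp.prod_add_index' (by simp) (by intros; rw [pow_add]),
        Finsupp.prod_single_index (by simp), Finsupp.prod_single_index (by simp)]
      simp only [Sum.elim_inl, Sum.elim_inr, pow_one, Pi.zero_apply, zero_add, dotProduct, mulVec,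
        Matrix.of_apply, ite_and, ite_mul, zero_mul]
      rw [sum_eq_single i]
      · simp only [if_true]
        rw [sum_eq_single l]
        · simp; ring
        · intro b _ hb; simp [hb]
        · simp
      · intro b _ hb; simp [hb]
      · simp

variable {k n m : ℕ}

theorem z2_ne (p q : ZMod 2) : p + (q + 1) ≠ 0 ↔ p = q := by
  revert p q; decide

/-- every value that is attained is attained often -/
theorem attained (P : Fin k → MvPolynomial (Fin n ⊕ Fin m) (ZMod 2)) (e : ℕ)
    (hdeg : ∀ j, (P j).totalDegree ≤ e) (x0 : V n) (y0 : V m) :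
    2 ^ (n + m) ≤ 2 ^ (e * k) * (univ.filter fun z : V n × V m =>
      (fun j => eval (Sum.elim z.1 z.2) (P j)) = fun j => eval (Sum.elim x0 y0) (P j)).card := by
  classical
  set v : V k := fun j => eval (Sum.elim x0 y0) (P j) with hv
  set Q : MvPolynomial (Fin n ⊕ Fin m) (ZMod 2) := ∏ j, (P j + C (v j + 1)) with hQ
  have hQe : ∀ (x : V n) (y : V m), eval (Sum.elim x y) Q ≠ 0 ↔
      (fun j => eval (Sum.elim x y) (P j)) = v := by
    intro x y
    rw [hQ, map_prod, prod_ne_zero_iff]
    simp only [map_add, eval_C, mem_univ, true_imp_iff]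
    constructor
    · intro h
      funext j
      exact (z2_ne _ _).1 (by simpa using h j)
    · intro h j
      have := (z2_ne _ _).2 (congrFun h j)
      simpa using this
  have hQd : Q.totalDegree ≤ e * k := by
    refine (totalDegree_finsetProd _ _).trans ?_
    calc _ ≤ ∑ _j : Fin k, e := by
          refine sum_le_sum fun j _ => ?_
          refine (totalDegree_add _ _).trans (max_le (hdeg j) ?_)
          rw [totalDegree_C]; exact Nat.zero_le _
      _ = e * k := by simp [mul_comm]
  have h := nonzeros2 n m (e * k) Q hQd x0 y0 ((hQe x0 y0).2 rfl)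
  simp only [hQe] at h
  exact h

theorem final_rows (P : Fin k → MvPolynomial (Fin n ⊕ Fin m) (ZMod 2)) (e : ℕ)
    (hdeg : ∀ j, (P j).totalDegree ≤ e) (hmix : ∀ j, Mixed (P j)) (g : V k → Bool) (r : ℕ)
    (hr : (Matrix.of fun (x : V n) (y : V m) =>
      if g (fun j => eval (Sum.elim x y) (P j)) then (1 : ℝ) else 0).rank ≤ r) :
    ∃ (w : ℕ) (Q : Type) (_ : Fintype Q) (α : V n → Q), Fintype.card Q ≤ 2 ^ w ∧
      w ≤ k * (Nat.log 2 r + (2 * e + 8) * k + 5) ∧
      ∀ x x', α x = α x' → ∀ y, g (fun j => eval (Sum.elim x y) (P j)) =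
        g (fun j => eval (Sum.elim x' y) (P j)) := by
  classical
  choose a b B h using hmix
  have hPP : ∀ x y, (fun j => eval (Sum.elim x y) (P j)) = PP a b B x y := fun x y => by
    funext j
    rw [h]; rfl
  set L := Nat.log 2 r with hL
  set s := e * k + 4 * k + 2 + (L + 1) / 2 with hs
  have hrank : (MM a b B g).rank ≤ r := by
    refine le_trans (le_of_eq ?_) hr
    congr 1
    ext x y
    show bit _ = _
    simp only [Matrix.of_apply, hPP]
    rfl
  have h2 : (MM a b B g).rank * 4 ^ (3 * k + e * k + 1) < 4 ^ s := by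
    have h3 : (MM a b B g).rank < 2 ^ (L + 1) :=
      hrank.trans_lt (Nat.lt_pow_succ_log_self (by norm_num) _)
    have e4 : ∀ t : ℕ, 4 ^ t = 2 ^ (2 * t) := fun t => by rw [pow_mul]; norm_num
    rw [e4, e4]
    calc _ < 2 ^ (L + 1) * 2 ^ (2 * (3 * k + e * k + 1)) :=
          Nat.mul_lt_mul_of_pos_right h3 (by positivity)
      _ = 2 ^ (L + 1 + 2 * (3 * k + e * k + 1)) := by rw [← pow_add]
      _ ≤ _ := Nat.pow_le_pow_right (by norm_num) (by omega)
  have h0 := hi_zero a b B g (e * k) s (by omega) h2 (by
    intro x0 y0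
    have := attained P e hdeg x0 y0
    simpa only [hPP] using this)
  obtain ⟨Q, hQ, α, hcard, hα⟩ := few_rows a b B g s h0
  refine ⟨2 * s * k, Q, hQ, α, hcard, ?_, ?_⟩
  · rw [mul_comm]
    refine Nat.mul_le_mul_left _ ?_
    have : (2 * e + 8) * k = 2 * (e * k) + 8 * k := by ring
    rw [this]
    omega
  · intro x x' hx y
    rw [hPP, hPP]
    exact hα x x' hx y

open Pool.Agent.H630R2.LR in
/-- the protocol -/
theorem final_proto (P : Fin k → MvPolynomial (Fin n ⊕ Fin m) (ZMod 2)) (e : ℕ)
    (hdeg : ∀ j, (P j).totalDegree ≤ e) (hmix : ∀ j, Mixed (P j)) (g : V k → Bool) :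
    Proto (fun (x : V n) (y : V m) => g (fun j => eval (Sum.elim x y) (P j)))
      (k * (Nat.log 2 (Matrix.of fun (x : V n) (y : V m) =>
      if g (fun j => eval (Sum.elim x y) (P j)) then (1 : ℝ) else 0).rank +
        (2 * e + 8) * k + 5) + 1) := by
  classical
  set F := fun (x : V n) (y : V m) => g (fun j => eval (Sum.elim x y) (P j)) with hF
  obtain ⟨w, Q, hQ, α, hcard, hw, hα⟩ := final_rows P e hdeg hmix g _ le_rfl
  have h1 : Proto F (1 + w) := by
    refine Proto.sendX F α w hcard
      (fun q _ y => decide (∃ x', α x' = q ∧ F x' y = true)) 1 (fun q => ?_) (fun x y => ?_)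
    · exact Proto.bob _ (fun y => decide (∃ x', α x' = q ∧ F x' y = true)) (fun v _ _ => v) 0
        (fun v => Proto.const _ v fun _ _ => rfl) (fun _ _ => rfl)
    · by_cases hx : F x y = true
      · rw [hx]
        exact (decide_eq_true ⟨x, rfl, hx⟩).symm
      · have hx' : F x y = false := by simpa using hx
        rw [hx']
        refine (decide_eq_false ?_).symm
        rintro ⟨x', h1, h2⟩
        exact hx ((hα x' x h1 y).symm.trans h2)
  exact h1.mono (by omega)

end Pool.Agent.R111.LQ
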