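import Pool.Agent.R111.LQ.Basic

/-!
A polynomial over `F_2` of degree at most `d` in `N` variables which does not vanish everywhere has
at least `2 ^ (N - d)` nonzeros.
-/

set_option autoImplicit false

namespace Pool.Agent.R111.LQ

open Finset MvPolynomial

/-- the number of nonzeros -/
def nz {N : ℕ} (f : V N → ZMod 2) : ℕ := (univ.filter fun x => f x ≠ 0).card

theorem nz_cons {N : ℕ} (f : V (N + 1) → ZMod 2) :
    nz f = nz (fun x : V N => f (Fin.cons 0 x)) + nz (fun x : V N => f (Fin.cons 1 x)) := by
  classical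
  unfold nz
  simp only [card_filter]
  rw [← Equiv.sum_comp (Fin.consEquiv (fun _ : Fin (N + 1) => ZMod 2))
    (fun x => if f x ≠ 0 then 1 else 0), Fintype.sum_prod_type]
  have : ∀ h : ZMod 2 → ℕ, ∑ a, h a = h 0 + h 1 := by
    intro h
    have : (univ : Finset (ZMod 2)) = {0, 1} := by decide
    rw [this, sum_pair (by decide)]
  rw [this]
  rfl

theorem eval_split {N : ℕ} (p : MvPolynomial (Fin (N + 1)) (ZMod 2)) :
    ∃ A D : MvPolynomial (Fin N) (ZMod 2), A.totalDegree ≤ p.totalDegree ∧
      (D = 0 ∨ D.totalDegree + 1 ≤ p.totalDegree) ∧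
      (∀ x, eval (Fin.cons 0 x : V (N + 1)) p = eval x A) ∧
      ∀ x, eval (Fin.cons 1 x : V (N + 1)) p = eval x A + eval x D := by
  classical
  set q := finSuccEquiv (ZMod 2) N p with hq
  refine ⟨q.coeff 0, ∑ i ∈ range q.natDegree, q.coeff (i + 1), ?_, ?_, fun x => ?_, fun x => ?_⟩
  · by_cases h : q.coeff 0 = 0
    · rw [h]; simp
    · have := totalDegree_coeff_finSuccEquiv_add_le p 0 h
      simpa using this
  · by_cases hD : ∑ i ∈ range q.natDegree, q.coeff (i + 1) = 0
    · exact Or.inl hD
    · right
      obtain ⟨i, hi, hne⟩ : ∃ i ∈ range q.natDegree, q.coeff (i + 1) ≠ 0 := by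
        by_contra hc
        push Not at hc
        exact hD (sum_eq_zero hc)
      have h1 := totalDegree_coeff_finSuccEquiv_add_le p (i + 1) hne
      have h2 : (∑ i ∈ range q.natDegree, q.coeff (i + 1)).totalDegree ≤ p.totalDegree - 1 := by
        refine totalDegree_finsetSum_le fun j _ => ?_
        by_cases hj : q.coeff (j + 1) = 0
        · rw [hj]; simp
        · have := totalDegree_coeff_finSuccEquiv_add_le p (j + 1) hj
          simp only [hq]
          omega
      omega
  · have h := eval_eq_eval_mv_eval' x (0 : ZMod 2) p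
    rw [h, ← Polynomial.coeff_zero_eq_eval_zero, Polynomial.coeff_map]
  · have h := eval_eq_eval_mv_eval' x (1 : ZMod 2) p
    rw [h]
    rw [Polynomial.eval_map, Polynomial.eval₂_eq_sum_range, sum_range_succ', ← hq]
    simp only [one_pow, mul_one, map_sum]
    rw [add_comm]

theorem nonzeros : ∀ (N d : ℕ) (p : MvPolynomial (Fin N) (ZMod 2)), p.totalDegree ≤ d →
    (∃ x, eval x p ≠ 0) → 2 ^ N ≤ 2 ^ d * nz (fun x => eval x p) := by
  intro N
  induction N with
  | zero =>
    intro d p _ ⟨x, hx⟩
    have h1 : 1 ≤ nz (fun x => eval x p) :=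
      card_pos.2 ⟨x, mem_filter.2 ⟨mem_univ _, hx⟩⟩
    have h2 : 1 ≤ 2 ^ d := Nat.one_le_two_pow
    calc 2 ^ 0 = 1 * 1 := by norm_num
      _ ≤ _ := Nat.mul_le_mul h2 h1
  | succ N ih =>
    intro d p hd ⟨x0, hx0⟩
    obtain ⟨A, D, hA, hD, e0, e1⟩ := eval_split p
    rw [nz_cons]
    simp only [e0, e1]
    have hA' : A.totalDegree ≤ d := hA.trans hd
    by_cases hD0 : ∀ x, eval x D = 0
    · have hex : ∃ x, eval x A ≠ 0 := by
        refine ⟨Fin.tail x0, fun h => hx0 ?_⟩
        rw [← Fin.cons_self_tail x0]
        rcases z2 (x0 0) with h0 | h0 <;> rw [h0]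
        · rw [e0, h]
        · rw [e1, h, hD0, add_zero]
      have := ih d A hA' hex
      simp only [hD0, add_zero]
      calc 2 ^ (N + 1) = 2 ^ N + 2 ^ N := by ring
        _ ≤ 2 ^ d * nz (fun x => eval x A) + 2 ^ d * nz (fun x => eval x A) :=
            Nat.add_le_add this this
        _ = _ := by ring
    · push Not at hD0
      have hdeg : D.totalDegree + 1 ≤ d := by
        rcases hD with h | h
        · obtain ⟨x, hx⟩ := hD0
          rw [h] at hx
          simp at hx
        · exact h.trans hd
      obtain ⟨d, rfl⟩ : ∃ d', d = d' + 1 := ⟨d - 1, by omega⟩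
      have hDn := ih d D (by omega) hD0
      by_cases hA0 : ∀ x, eval x A = 0
      · simp only [hA0, zero_add]
        calc 2 ^ (N + 1) = 2 * 2 ^ N := by ring
          _ ≤ 2 * (2 ^ d * nz (fun x => eval x D)) := Nat.mul_le_mul_left _ hDn
          _ = 2 ^ (d + 1) * nz (fun x => eval x D) := by ring
          _ ≤ _ := Nat.mul_le_mul_left _ (Nat.le_add_left _ _)
      · by_cases hS : ∀ x, eval x A + eval x D = 0
        · have e : ∀ x, eval x A = eval x D := by
            intro x
            have := hS x
            have h2 : eval x D + eval x D = 0 := CharTwo.add_self_eq_zero _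
            exact add_right_cancel (this.trans h2.symm)
          simp only [e]
          calc 2 ^ (N + 1) = 2 * 2 ^ N := by ring
            _ ≤ 2 * (2 ^ d * nz (fun x => eval x D)) := Nat.mul_le_mul_left _ hDn
            _ = 2 ^ (d + 1) * nz (fun x => eval x D) := by ring
            _ ≤ _ := Nat.mul_le_mul_left _ (Nat.le_add_right _ _)
        · push Not at hA0 hS
          have h1 := ih (d + 1) A hA' hA0
          have h2 := ih (d + 1) (A + D) ((totalDegree_add _ _).trans (by omega)) (by
            obtain ⟨x, hx⟩ := hS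
            exact ⟨x, by simpa using hx⟩)
          simp only [map_add] at h2
          calc 2 ^ (N + 1) = 2 ^ N + 2 ^ N := by ring
            _ ≤ _ := by rw [mul_add]; exact Nat.add_le_add h1 h2

/-- the same for two groups of variables -/
theorem nonzeros2 (n m d : ℕ) (p : MvPolynomial (Fin n ⊕ Fin m) (ZMod 2)) (hd : p.totalDegree ≤ d)
    (x0 : V n) (y0 : V m) (h0 : eval (Sum.elim x0 y0) p ≠ 0) :
    2 ^ (n + m) ≤ 2 ^ d *
      (univ.filter fun z : V n × V m => eval (Sum.elim z.1 z.2) p ≠ 0).card := by
  classical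
  have h1 := nonzeros (n + m) d (rename finSumFinEquiv p)
    ((totalDegree_rename_le _ _).trans hd)
    ⟨Sum.elim x0 y0 ∘ finSumFinEquiv.symm, by
      rw [eval_rename, Function.comp_assoc, Equiv.symm_comp_self, Function.comp_id]
      exact h0⟩
  refine h1.trans (Nat.mul_le_mul_left _ ?_)
  unfold nz
  refine card_le_card_of_injOn
    (fun w => (fun i => w (finSumFinEquiv (Sum.inl i)), fun j => w (finSumFinEquiv (Sum.inr j))))
    (fun w hw => ?_) (fun w _ w' _ h => ?_)
  · simp only [coe_filter, mem_univ, true_and, Set.mem_ofPred_eq, eval_rename] at hw ⊢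
    convert hw using 3
    funext s
    rcases s with i | j <;> rfl
  · funext t
    obtain ⟨s, rfl⟩ := finSumFinEquiv.surjective t
    rcases s with i | j
    · exact congrFun (congrArg Prod.fst h) i
    · exact congrFun (congrArg Prod.snd h) j

end Pool.Agent.R111.LQ
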