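import Pool.Agent.R111.LQ.Rank
import Pool.Agent.R111.LQ.Nz

/-!
Functions of `k` polynomials with bilinear mixed part: few distinct rows in terms of the rank.
-/

set_option autoImplicit false

namespace Pool.Agent.R111.LQ

open Finset Matrix

section
variable {k n m : ℕ} (a : Fin k → V n → ZMod 2) (b : Fin k → V m → ZMod 2)
  (B : Fin k → Matrix (Fin n) (Fin m) (ZMod 2))

/-- the vector of the values -/
def PP (x : V n) (y : V m) : V k := fun j => a j x + b j y + x ⬝ᵥ (B j *ᵥ y)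

def aC (c : V k) (x : V n) : ZMod 2 := ∑ j, c j * a j x
def bC (c : V k) (y : V m) : ZMod 2 := ∑ j, c j * b j y
def BC (c : V k) : Matrix (Fin n) (Fin m) (ZMod 2) := ∑ j, c j • B j

theorem dot_PP (c : V k) (x : V n) (y : V m) :
    c ⬝ᵥ PP a b B x y = aC a c x + bC b c y + x ⬝ᵥ (BC B c *ᵥ y) := by
  unfold PP aC bC BC
  rw [Matrix.sum_mulVec, dotProduct_sum, dotProduct, ← sum_add_distrib, ← sum_add_distrib]
  refine sum_congr rfl fun j _ => ?_
  rw [smul_mulVec, dotProduct_smul, smul_eq_mul]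
  ring

/-- the span of the combinations of small rank -/
def Low (s : ℕ) : Submodule (ZMod 2) (V k) :=
  Submodule.span (ZMod 2) {c | (BC B c).rank < 2 * s}

theorem rank_high {s : ℕ} {c : V k} (hc : c ∉ Low B s) : 2 * s ≤ (BC B c).rank := by
  by_contra h
  exact hc (Submodule.subset_span (by
    show (BC B c).rank < 2 * s
    omega))

theorem ker_high {s : ℕ} {c : V k} (hc : c ∉ Low B s) :
    ((ker (BC B c)).card : ℝ) ≤ 2 ^ m * ((1 / 2 : ℝ) ^ s) ^ 2 := by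
  have h1 := card_ker (BC B c)
  have h2 : (ker (BC B c)).card * 2 ^ (2 * s) ≤ 2 ^ m := by
    rw [← h1]
    exact Nat.mul_le_mul_left _ (Nat.pow_le_pow_right (by norm_num) (rank_high B hc))
  have h3 : ((ker (BC B c)).card : ℝ) * 2 ^ (2 * s) ≤ 2 ^ m := by exact_mod_cast h2
  have h4 : (2 : ℝ) ^ (2 * s) * ((1 / 2 : ℝ) ^ s) ^ 2 = 1 := by
    rw [pow_mul', ← mul_pow, ← mul_pow]
    norm_num
  calc ((ker (BC B c)).card : ℝ)
      = ((ker (BC B c)).card : ℝ) * (2 ^ (2 * s) * ((1 / 2 : ℝ) ^ s) ^ 2) := by rw [h4, mul_one]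
    _ = ((ker (BC B c)).card : ℝ) * 2 ^ (2 * s) * ((1 / 2 : ℝ) ^ s) ^ 2 := by ring
    _ ≤ _ := mul_le_mul_of_nonneg_right h3 (by positivity)

theorem opC {s : ℕ} {c : V k} (hc : c ∉ Low B s) (e : V m → ℝ) :
    ∑ x : V n, (∑ y, sg (c ⬝ᵥ PP a b B x y) * e y) ^ 2 ≤
      2 ^ (n + m) * ((1 / 2 : ℝ) ^ s) ^ 2 * ∑ y, e y ^ 2 := by
  have h := op_bound (BC B c) (fun y => sg (bC b c y) * e y)
  have e1 : ∀ x : V n, (∑ y, sg (c ⬝ᵥ PP a b B x y) * e y) ^ 2 =
      (∑ y, sg (x ⬝ᵥ (BC B c *ᵥ y)) * (sg (bC b c y) * e y)) ^ 2 := by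
    intro x
    have : ∑ y, sg (c ⬝ᵥ PP a b B x y) * e y =
        sg (aC a c x) * ∑ y, sg (x ⬝ᵥ (BC B c *ᵥ y)) * (sg (bC b c y) * e y) := by
      rw [mul_sum]
      refine sum_congr rfl fun y _ => ?_
      rw [dot_PP, sg_add, sg_add]
      ring
    rw [this, mul_pow, sg_sq', one_mul]
  have e2 : ∑ y, (sg (bC b c y) * e y) ^ 2 = ∑ y, e y ^ 2 := by
    refine sum_congr rfl fun y _ => ?_
    rw [mul_pow, sg_sq', one_mul]
  simp only [e1]
  rw [e2] at h
  refine h.trans ?_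
  have hs : 0 ≤ ∑ y, e y ^ 2 := sum_nonneg fun _ _ => sq_nonneg _
  refine mul_le_mul_of_nonneg_right ?_ hs
  calc (2 : ℝ) ^ n * (ker (BC B c)).card ≤ 2 ^ n * (2 ^ m * ((1 / 2 : ℝ) ^ s) ^ 2) :=
        mul_le_mul_of_nonneg_left (ker_high B hc) (by positivity)
    _ = _ := by rw [pow_add]; ring

theorem bias {s : ℕ} {c : V k} (hc : c ∉ Low B s) :
    |∑ x : V n, ∑ y : V m, sg (c ⬝ᵥ PP a b B x y)| ≤ 2 ^ (n + m) * (1 / 2 : ℝ) ^ s := by
  have h := opC a b B hc (fun _ => 1)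
  simp only [mul_one, one_pow, sum_const, card_univ, Fintype.card_fun, ZMod.card,
    Fintype.card_fin, nsmul_eq_mul] at h
  have h2 : (∑ x : V n, ∑ y : V m, sg (c ⬝ᵥ PP a b B x y)) ^ 2 ≤
      2 ^ n * ∑ x : V n, (∑ y : V m, sg (c ⬝ᵥ PP a b B x y)) ^ 2 := by
    have := sum_mul_sq_le_sq_mul_sq (univ : Finset (V n)) (fun _ => (1 : ℝ))
      (fun x => ∑ y : V m, sg (c ⬝ᵥ PP a b B x y))
    simpa [Fintype.card_fun, ZMod.card] using this
  refine abs_le_of_sq_le_sq ?_ (by positivity)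
  calc _ ≤ 2 ^ n * ∑ x : V n, (∑ y : V m, sg (c ⬝ᵥ PP a b B x y)) ^ 2 := h2
    _ ≤ 2 ^ n * (2 ^ (n + m) * ((1 / 2 : ℝ) ^ s) ^ 2 * ((2 ^ m : ℕ) : ℝ)) :=
        mul_le_mul_of_nonneg_left h (by positivity)
    _ = _ := by push_cast; rw [pow_add]; ring

end

section Fourier
variable {k : ℕ} (g : V k → Bool)

def bit (t : Bool) : ℝ := if t then 1 else 0
def bitZ (t : Bool) : ℤ := if t then 1 else 0

theorem bit_cast (t : Bool) : bit t = (bitZ t : ℝ) := by cases t <;> simp [bit, bitZ]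
theorem bit_nonneg (t : Bool) : 0 ≤ bit t := by cases t <;> simp [bit]
theorem bit_le (t : Bool) : bit t ≤ 1 := by cases t <;> simp [bit]
theorem bit_sq (t : Bool) : bit t ^ 2 = bit t := by cases t <;> simp [bit]
theorem bit_inj {s t : Bool} (h : bit s = bit t) : s = t := by
  cases s <;> cases t <;> simp [bit] at h ⊢

/-- Fourier coefficient -/
noncomputable def gh (c : V k) : ℝ := (1 / 2) ^ k * ∑ v : V k, bit (g v) * sg (c ⬝ᵥ v)

theorem gh_int (c : V k) : ∃ z : ℤ, gh g c = (1 / 2) ^ k * z := by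
  refine ⟨∑ v : V k, bitZ (g v) * sgZ (c ⬝ᵥ v), ?_⟩
  unfold gh
  push_cast
  congr 1
  refine sum_congr rfl fun v _ => ?_
  rw [bit_cast]; rfl

theorem abs_gh (c : V k) : |gh g c| ≤ 1 := by
  unfold gh
  rw [abs_mul, abs_of_pos (by positivity : (0 : ℝ) < (1 / 2) ^ k)]
  have h : |∑ v : V k, bit (g v) * sg (c ⬝ᵥ v)| ≤ 2 ^ k := by
    refine (abs_sum_le_sum_abs _ _).trans ?_
    calc _ ≤ ∑ _v : V k, (1 : ℝ) := by
          refine sum_le_sum fun v _ => ?_
          rw [abs_mul, abs_sg, mul_one, abs_of_nonneg (bit_nonneg _)]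
          exact bit_le _
      _ = 2 ^ k := by simp [ZMod.card]
  calc (1 / 2 : ℝ) ^ k * |∑ v : V k, bit (g v) * sg (c ⬝ᵥ v)| ≤ (1 / 2) ^ k * 2 ^ k :=
        mul_le_mul_of_nonneg_left h (by positivity)
    _ = 1 := by rw [← mul_pow]; norm_num

theorem inversion (v : V k) : bit (g v) = ∑ c : V k, gh g c * sg (c ⬝ᵥ v) := by
  have h1 : ∀ c : V k, gh g c * sg (c ⬝ᵥ v) =
      ∑ w : V k, (1 / 2) ^ k * bit (g w) * sg (c ⬝ᵥ (w + v)) := by
    intro c
    unfold gh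
    rw [mul_assoc, sum_mul, mul_sum]
    refine sum_congr rfl fun w _ => ?_
    rw [dotProduct_add, sg_add]
    ring
  simp only [h1]
  rw [sum_comm]
  have h2 : ∀ w : V k, ∑ c : V k, (1 / 2 : ℝ) ^ k * bit (g w) * sg (c ⬝ᵥ (w + v)) =
      if w = v then bit (g w) else 0 := by
    intro w
    rw [← mul_sum, sum_sg_dot]
    have hz : w + v = 0 ↔ w = v := by
      constructor
      · intro h
        funext i
        have := congrFun h i
        simp only [Pi.add_apply, Pi.zero_apply] at this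
        exact (CharTwo.add_eq_zero).1 this
      · rintro rfl
        funext i
        exact CharTwo.add_self_eq_zero _
    by_cases h : w = v
    · rw [if_pos (hz.2 h), if_pos h]
      have : (1 / 2 : ℝ) ^ k * 2 ^ k = 1 := by rw [← mul_pow]; norm_num
      calc (1 / 2 : ℝ) ^ k * bit (g w) * 2 ^ k = bit (g w) * ((1 / 2 : ℝ) ^ k * 2 ^ k) := by ring
        _ = _ := by rw [this, mul_one]
    · rw [if_neg (fun h' => h (hz.1 h')), if_neg h, mul_zero]
  simp only [h2, sum_ite_eq', mem_univ, if_true]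

open Classical in
/-- the high part -/
noncomputable def hi (C : Submodule (ZMod 2) (V k)) (v : V k) : ℝ :=
  ∑ c ∈ univ.filter (fun c => c ∉ C), gh g c * sg (c ⬝ᵥ v)

open Classical in
/-- the low part -/
noncomputable def lo (C : Submodule (ZMod 2) (V k)) (v : V k) : ℝ :=
  ∑ c ∈ univ.filter (fun c => c ∈ C), gh g c * sg (c ⬝ᵥ v)

theorem lo_add_hi (C : Submodule (ZMod 2) (V k)) (v : V k) : lo g C v + hi g C v = bit (g v) := by
  classical
  rw [inversion, lo, hi]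
  exact sum_filter_add_sum_filter_not _ _ _

theorem hi_large (C : Submodule (ZMod 2) (V k)) (v : V k) (h : hi g C v ≠ 0) :
    ((1 / 2 : ℝ) ^ k) ^ 2 ≤ hi g C v ^ 2 := by
  classical
  choose z hz using gh_int g
  have e : hi g C v = (1 / 2) ^ k *
      ((∑ c ∈ univ.filter (fun c => c ∉ C), z c * sgZ (c ⬝ᵥ v) : ℤ) : ℝ) := by
    unfold hi
    push_cast
    rw [mul_sum]
    refine sum_congr rfl fun c _ => ?_
    rw [hz]
    unfold sg
    ring
  set Z := ∑ c ∈ univ.filter (fun c => c ∉ C), z c * sgZ (c ⬝ᵥ v)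
  have hZ : Z ≠ 0 := by
    intro h0
    rw [e, h0] at h
    simp at h
  have h1 : (1 : ℝ) ≤ (Z : ℝ) ^ 2 := by
    have : (1 : ℤ) ≤ Z ^ 2 := by
      have := sq_nonneg Z
      have h2 : Z ^ 2 ≠ 0 := pow_ne_zero _ hZ
      omega
    exact_mod_cast this
  rw [e, mul_pow]
  nlinarith [sq_nonneg ((1 / 2 : ℝ) ^ k)]

end Fourier

end Pool.Agent.R111.LQ
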