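import Pool.Agent.R111.LQ.Main

/-!
Functions of `k` polynomials with bilinear mixed part: the high part vanishes, few distinct rows.
-/

set_option autoImplicit false

namespace Pool.Agent.R111.LQ

open Finset Matrix

section
variable {k n m : ℕ} (a : Fin k → V n → ZMod 2) (b : Fin k → V m → ZMod 2)
  (B : Fin k → Matrix (Fin n) (Fin m) (ZMod 2)) (g : V k → Bool)

/-- operator norm of the high part -/
theorem op_hi (s : ℕ) (e : V m → ℝ) :
    ∑ x : V n, (∑ y, hi g (Low B s) (PP a b B x y) * e y) ^ 2 ≤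
      (4 ^ k * (2 ^ (n + m) * ((1 / 2 : ℝ) ^ s) ^ 2)) * ∑ y, e y ^ 2 := by
  classical
  set H := univ.filter (fun c : V k => c ∉ Low B s) with hH
  have hcard : (H.card : ℝ) ≤ 2 ^ k := by
    have : H.card ≤ 2 ^ k := by
      refine (card_le_univ _).trans ?_
      simp [ZMod.card]
    exact_mod_cast this
  have hE : 0 ≤ ∑ y, e y ^ 2 := sum_nonneg fun _ _ => sq_nonneg _
  have h1 : ∀ x : V n, (∑ y, hi g (Low B s) (PP a b B x y) * e y) ^ 2 ≤
      2 ^ k * ∑ c ∈ H, (∑ y, sg (c ⬝ᵥ PP a b B x y) * e y) ^ 2 := by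
    intro x
    have e1 : ∑ y, hi g (Low B s) (PP a b B x y) * e y =
        ∑ c ∈ H, gh g c * ∑ y, sg (c ⬝ᵥ PP a b B x y) * e y := by
      simp only [hi, sum_mul]
      rw [sum_comm]
      refine sum_congr (by rw [hH]) fun c _ => ?_
      rw [mul_sum]
      refine sum_congr rfl fun y _ => ?_
      ring
    rw [e1]
    refine (sum_mul_sq_le_sq_mul_sq _ _ _).trans ?_
    refine mul_le_mul_of_nonneg_right ?_ (sum_nonneg fun _ _ => sq_nonneg _)
    calc ∑ c ∈ H, gh g c ^ 2 ≤ ∑ _c ∈ H, (1 : ℝ) := by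
          refine sum_le_sum fun c _ => ?_
          have := abs_gh g c
          rw [← sq_abs]
          nlinarith [abs_nonneg (gh g c)]
      _ = H.card := by simp
      _ ≤ _ := hcard
  calc _ ≤ ∑ x : V n, 2 ^ k * ∑ c ∈ H, (∑ y, sg (c ⬝ᵥ PP a b B x y) * e y) ^ 2 :=
        sum_le_sum fun x _ => h1 x
    _ = 2 ^ k * ∑ c ∈ H, ∑ x : V n, (∑ y, sg (c ⬝ᵥ PP a b B x y) * e y) ^ 2 := by
        rw [← mul_sum, sum_comm]
    _ ≤ 2 ^ k * ∑ _c ∈ H, 2 ^ (n + m) * ((1 / 2 : ℝ) ^ s) ^ 2 * ∑ y, e y ^ 2 := by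
        refine mul_le_mul_of_nonneg_left (sum_le_sum fun c hc => ?_) (by positivity)
        exact opC a b B (by simpa [hH] using hc) e
    _ = 2 ^ k * (H.card * (2 ^ (n + m) * ((1 / 2 : ℝ) ^ s) ^ 2 * ∑ y, e y ^ 2)) := by
        rw [sum_const, nsmul_eq_mul]
    _ ≤ 2 ^ k * (2 ^ k * (2 ^ (n + m) * ((1 / 2 : ℝ) ^ s) ^ 2 * ∑ y, e y ^ 2)) := by
        refine mul_le_mul_of_nonneg_left (mul_le_mul_of_nonneg_right hcard (by positivity))
          (by positivity)
    _ = _ := by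
        have : (4 : ℝ) ^ k = 2 ^ k * 2 ^ k := by rw [← mul_pow]; norm_num
        rw [this]; ring

/-- the low and the high part are almost orthogonal -/
theorem cross (s : ℕ) :
    |∑ x : V n, ∑ y : V m, lo g (Low B s) (PP a b B x y) * hi g (Low B s) (PP a b B x y)| ≤
      4 ^ k * (2 ^ (n + m) * (1 / 2 : ℝ) ^ s) := by
  classical
  set H := univ.filter (fun c : V k => c ∉ Low B s) with hH
  set H' := univ.filter (fun c : V k => c ∈ Low B s) with hH'
  have hcard : ∀ S : Finset (V k), (S.card : ℝ) ≤ 2 ^ k := by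
    intro S
    have : S.card ≤ 2 ^ k := by
      refine (card_le_univ _).trans ?_
      simp [ZMod.card]
    exact_mod_cast this
  have e1 : ∑ x : V n, ∑ y : V m, lo g (Low B s) (PP a b B x y) * hi g (Low B s) (PP a b B x y) =
      ∑ c ∈ H', ∑ c' ∈ H, gh g c * gh g c' *
        ∑ x : V n, ∑ y : V m, sg ((c + c') ⬝ᵥ PP a b B x y) := by
    have e2 : ∀ (x : V n) (y : V m),
        lo g (Low B s) (PP a b B x y) * hi g (Low B s) (PP a b B x y) =
        ∑ c ∈ H', ∑ c' ∈ H, gh g c * gh g c' * sg ((c + c') ⬝ᵥ PP a b B x y) := by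
      intro x y
      rw [lo, hi, sum_mul_sum]
      refine sum_congr (by rw [hH']) fun c _ => sum_congr (by rw [hH]) fun c' _ => ?_
      rw [add_dotProduct, sg_add]
      ring
    simp only [e2, mul_sum]
    calc _ = ∑ x : V n, ∑ c ∈ H', ∑ y : V m, ∑ c' ∈ H,
          gh g c * gh g c' * sg ((c + c') ⬝ᵥ PP a b B x y) :=
          sum_congr rfl fun x _ => sum_comm
      _ = ∑ c ∈ H', ∑ x : V n, ∑ y : V m, ∑ c' ∈ H,
          gh g c * gh g c' * sg ((c + c') ⬝ᵥ PP a b B x y) := sum_comm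
      _ = ∑ c ∈ H', ∑ x : V n, ∑ c' ∈ H, ∑ y : V m,
          gh g c * gh g c' * sg ((c + c') ⬝ᵥ PP a b B x y) :=
          sum_congr rfl fun c _ => sum_congr rfl fun x _ => sum_comm
      _ = _ := sum_congr rfl fun c _ => sum_comm
  rw [e1]
  have h2 : ∀ c ∈ H', ∀ c' ∈ H, |gh g c * gh g c' *
      ∑ x : V n, ∑ y : V m, sg ((c + c') ⬝ᵥ PP a b B x y)| ≤ 2 ^ (n + m) * (1 / 2 : ℝ) ^ s := by
    intro c hc c' hc'
    have hcc : c + c' ∉ Low B s := by
      intro h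
      have hc1 : c ∈ Low B s := by simpa [hH'] using hc
      have hc2 : c' ∉ Low B s := by simpa [hH] using hc'
      exact hc2 (by simpa using (Low B s).sub_mem h hc1)
    have hb := bias a b B hcc
    rw [abs_mul, abs_mul]
    have h1 := abs_gh g c
    have h2 := abs_gh g c'
    have h3 : |gh g c| * |gh g c'| ≤ 1 := mul_le_one₀ h1 (abs_nonneg _) h2
    calc _ ≤ 1 * |∑ x : V n, ∑ y : V m, sg ((c + c') ⬝ᵥ PP a b B x y)| :=
          mul_le_mul_of_nonneg_right h3 (abs_nonneg _)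
      _ ≤ _ := by rw [one_mul]; exact hb
  calc _ ≤ ∑ c ∈ H', |∑ c' ∈ H, gh g c * gh g c' *
        ∑ x : V n, ∑ y : V m, sg ((c + c') ⬝ᵥ PP a b B x y)| := abs_sum_le_sum_abs _ _
    _ ≤ ∑ c ∈ H', ∑ c' ∈ H, |gh g c * gh g c' *
        ∑ x : V n, ∑ y : V m, sg ((c + c') ⬝ᵥ PP a b B x y)| :=
        sum_le_sum fun c _ => abs_sum_le_sum_abs _ _
    _ ≤ ∑ _c ∈ H', ∑ _c' ∈ H, 2 ^ (n + m) * (1 / 2 : ℝ) ^ s :=
        sum_le_sum fun c hc => sum_le_sum fun c' hc' => h2 c hc c' hc'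
    _ = H'.card * (H.card * (2 ^ (n + m) * (1 / 2 : ℝ) ^ s)) := by
        simp only [sum_const, nsmul_eq_mul]
    _ ≤ 2 ^ k * (2 ^ k * (2 ^ (n + m) * (1 / 2 : ℝ) ^ s)) := by
        refine mul_le_mul (hcard _) (mul_le_mul_of_nonneg_right (hcard _) (by positivity))
          (by positivity) (by positivity)
    _ = _ := by
        have : (4 : ℝ) ^ k = 2 ^ k * 2 ^ k := by rw [← mul_pow]; norm_num
        rw [this]; ring

/-- the real matrix -/
noncomputable def MM : Matrix (V n) (V m) ℝ := Matrix.of fun x y => bit (g (PP a b B x y))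

/-- the high part vanishes -/
theorem hi_zero (D s : ℕ) (hs : D + 4 * k + 1 ≤ s)
    (hr : (MM a b B g).rank * 4 ^ (3 * k + D + 1) < 4 ^ s)
    (hD : ∀ (x0 : V n) (y0 : V m), 2 ^ (n + m) ≤ 2 ^ D *
      (univ.filter fun z : V n × V m => PP a b B z.1 z.2 = PP a b B x0 y0).card)
    (x0 : V n) (y0 : V m) : hi g (Low B s) (PP a b B x0 y0) = 0 := by
  classical
  by_contra hne
  set Nn : ℝ := 2 ^ (n + m) with hNn
  have hN : 0 < Nn := by positivity
  set δ : ℝ := (1 / 2 : ℝ) ^ s with hδ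
  have hδ0 : 0 < δ := by positivity
  set S := ∑ x : V n, ∑ y : V m, MM a b B g x y * hi g (Low B s) (PP a b B x y) with hS
  -- lower bound
  have h1 : S = (∑ x : V n, ∑ y : V m,
      lo g (Low B s) (PP a b B x y) * hi g (Low B s) (PP a b B x y)) +
      ∑ x : V n, ∑ y : V m, hi g (Low B s) (PP a b B x y) ^ 2 := by
    rw [hS]
    simp only [← sum_add_distrib]
    refine sum_congr rfl fun x _ => sum_congr rfl fun y _ => ?_
    show bit (g (PP a b B x y)) * _ = _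
    rw [← lo_add_hi g (Low B s)]
    ring
  have h2 : Nn * (1 / 2) ^ D * (1 / 4) ^ k ≤
      ∑ x : V n, ∑ y : V m, hi g (Low B s) (PP a b B x y) ^ 2 := by
    have e1 : ∑ x : V n, ∑ y : V m, hi g (Low B s) (PP a b B x y) ^ 2 =
        ∑ z : V n × V m, hi g (Low B s) (PP a b B z.1 z.2) ^ 2 := by
      rw [Fintype.sum_prod_type]
    rw [e1]
    set F := univ.filter fun z : V n × V m => PP a b B z.1 z.2 = PP a b B x0 y0 with hF
    have hD' : Nn ≤ 2 ^ D * (F.card : ℝ) := by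
      have := hD x0 y0
      rw [hNn]; exact_mod_cast this
    have hl := hi_large g (Low B s) _ hne
    have e4 : ((1 / 2 : ℝ) ^ k) ^ 2 = (1 / 4) ^ k := by
      rw [← pow_mul, mul_comm, pow_mul]; norm_num
    rw [e4] at hl
    calc Nn * (1 / 2) ^ D * (1 / 4) ^ k ≤ (2 ^ D * (F.card : ℝ)) * (1 / 2) ^ D * (1 / 4) ^ k := by
          gcongr
      _ = F.card * (1 / 4) ^ k * (2 ^ D * (1 / 2) ^ D) := by ring
      _ = ∑ _z ∈ F, (1 / 4 : ℝ) ^ k := by
          rw [← mul_pow, sum_const, nsmul_eq_mul]; norm_num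
      _ ≤ ∑ z ∈ F, hi g (Low B s) (PP a b B z.1 z.2) ^ 2 := by
          refine sum_le_sum fun z hz => ?_
          rw [(mem_filter.1 hz).2]
          exact hl
      _ ≤ _ := sum_le_sum_of_subset_of_nonneg (subset_univ _) fun _ _ _ => sq_nonneg _
  have h3 := cross a b B g s
  have h4 : 4 ^ k * (Nn * δ) ≤ Nn * (1 / 2) ^ D * (1 / 4) ^ k / 2 := by
    have e : δ ≤ (1 / 2) ^ D * (1 / 4) ^ k * (1 / 4) ^ k / 2 := by
      have e1 : (1 / 2 : ℝ) ^ D * (1 / 4) ^ k * (1 / 4) ^ k / 2 = (1 / 2) ^ (D + 4 * k + 1) := by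
        have : (1 / 4 : ℝ) ^ k = (1 / 2) ^ (2 * k) := by rw [pow_mul]; norm_num
        rw [this, show D + 4 * k + 1 = D + 2 * k + 2 * k + 1 by ring, pow_succ, pow_add, pow_add]
        ring
      rw [e1]
      exact pow_le_pow_of_le_one (by norm_num) (by norm_num) hs
    calc 4 ^ k * (Nn * δ) ≤ 4 ^ k * (Nn * ((1 / 2) ^ D * (1 / 4) ^ k * (1 / 4) ^ k / 2)) := by
          gcongr
      _ = Nn * (1 / 2) ^ D * (1 / 4) ^ k / 2 * (4 ^ k * (1 / 4) ^ k) := by ring
      _ = _ := by rw [← mul_pow]; norm_num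
  have h5 : Nn * (1 / 2) ^ D * (1 / 4) ^ k / 2 ≤ S := by
    have := (abs_le.1 h3).1
    rw [h1]
    linarith
  -- upper bound
  have h6 := rank_ineq (MM a b B g) (Matrix.of fun x y => hi g (Low B s) (PP a b B x y))
    (4 ^ k * (Nn * δ ^ 2)) (op_hi a b B g s)
  have h7 : ∑ x : V n, ∑ y : V m, MM a b B g x y ^ 2 ≤ Nn := by
    calc _ ≤ ∑ _x : V n, ∑ _y : V m, (1 : ℝ) := by
          refine sum_le_sum fun x _ => sum_le_sum fun y _ => ?_
          show bit _ ^ 2 ≤ 1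
          rw [bit_sq]; exact bit_le _
      _ = Nn := by
          simp only [sum_const, card_univ, Fintype.card_fun, ZMod.card, Fintype.card_fin,
            nsmul_eq_mul, mul_one, hNn, pow_add]
          push_cast
          ring
  have h8 : S ^ 2 ≤ (MM a b B g).rank * (4 ^ k * (Nn * δ ^ 2)) * Nn := by
    refine h6.trans (mul_le_mul_of_nonneg_left h7 (by positivity))
  have h9 : (Nn * (1 / 2) ^ D * (1 / 4) ^ k / 2) ^ 2 ≤ S ^ 2 :=
    pow_le_pow_left₀ (by positivity) h5 2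
  have h10 : ((MM a b B g).rank : ℝ) * 4 ^ (3 * k + D + 1) < 4 ^ s := by exact_mod_cast hr
  have h11 := h9.trans h8
  have e5 : (Nn * (1 / 2) ^ D * (1 / 4) ^ k / 2) ^ 2 = Nn ^ 2 * (1 / 4) ^ (D + 2 * k + 1) := by
    have ea : ((1 / 2 : ℝ) ^ D) ^ 2 = (1 / 4) ^ D := by
      rw [← pow_mul, mul_comm, pow_mul]; norm_num
    have eb : (1 / 4 : ℝ) ^ (D + 2 * k + 1) = (1 / 4) ^ D * ((1 / 4) ^ k * (1 / 4) ^ k) * (1 / 4) := by
      rw [show D + 2 * k + 1 = D + (k + k) + 1 by ring, pow_succ, pow_add, pow_add]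
    calc (Nn * (1 / 2) ^ D * (1 / 4) ^ k / 2) ^ 2 =
          Nn ^ 2 * (((1 / 2 : ℝ) ^ D) ^ 2 * ((1 / 4) ^ k * (1 / 4) ^ k) * (1 / 4)) := by ring
      _ = _ := by rw [ea, eb]
  have e6 : ((MM a b B g).rank : ℝ) * (4 ^ k * (Nn * δ ^ 2)) * Nn =
      Nn ^ 2 * ((MM a b B g).rank * 4 ^ k * (1 / 4) ^ s) := by
    have : δ ^ 2 = (1 / 4) ^ s := by rw [hδ, ← pow_mul, mul_comm, pow_mul]; norm_num
    rw [this]; ring
  rw [e5, e6] at h11
  have h12 : (1 / 4 : ℝ) ^ (D + 2 * k + 1) ≤ (MM a b B g).rank * 4 ^ k * (1 / 4) ^ s :=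
    le_of_mul_le_mul_left h11 (by positivity)
  have h13 : (4 : ℝ) ^ s ≤ (MM a b B g).rank * 4 ^ (3 * k + D + 1) := by
    have h := mul_le_mul_of_nonneg_right h12
      (by positivity : (0 : ℝ) ≤ 4 ^ (D + 2 * k + 1) * 4 ^ s)
    have e7 : (1 / 4 : ℝ) ^ (D + 2 * k + 1) * (4 ^ (D + 2 * k + 1) * 4 ^ s) = 4 ^ s := by
      rw [← mul_assoc, ← mul_pow]; norm_num
    have e8 : ((MM a b B g).rank : ℝ) * 4 ^ k * (1 / 4) ^ s * (4 ^ (D + 2 * k + 1) * 4 ^ s) =
        (MM a b B g).rank * 4 ^ (3 * k + D + 1) := by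
      have q1 : (1 / 4 : ℝ) ^ s * 4 ^ s = 1 := by rw [← mul_pow]; norm_num
      have q2 : (4 : ℝ) ^ k * 4 ^ (D + 2 * k + 1) = 4 ^ (3 * k + D + 1) := by
        rw [← pow_add]; congr 1; ring
      calc _ = ((MM a b B g).rank : ℝ) * (4 ^ k * 4 ^ (D + 2 * k + 1)) *
            ((1 / 4) ^ s * 4 ^ s) := by ring
        _ = _ := by rw [q1, q2, mul_one]
    rw [e7, e8] at h
    exact h
  linarith

/-- few classes of rows -/
theorem few_rows (s : ℕ) (h0 : ∀ x y, hi g (Low B s) (PP a b B x y) = 0) :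
    ∃ (Q : Type) (_ : Fintype Q) (α : V n → Q), Fintype.card Q ≤ 2 ^ (2 * s * k) ∧
      ∀ x x', α x = α x' → ∀ y, g (PP a b B x y) = g (PP a b B x' y) := by
  classical
  obtain ⟨T, hT, hspan, hli⟩ := exists_linearIndependent (ZMod 2)
    {c : V k | (BC B c).rank < 2 * s}
  have _ : Fintype T := Fintype.ofFinite T
  have hcard : Fintype.card T ≤ k := by
    have := hli.fintype_card_le_finrank
    simpa using this
  refine ⟨∀ t : T, ZMod 2 × Set.range (fun x : V n => x ᵥ* BC B t.1), inferInstance,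
    fun x t => (aC a t.1 x, ⟨x ᵥ* BC B t.1, ⟨x, rfl⟩⟩), ?_, ?_⟩
  · rw [Fintype.card_pi]
    calc _ ≤ ∏ _t : T, 2 ^ (2 * s) := by
          refine prod_le_prod' fun t _ => ?_
          rw [Fintype.card_prod, card_rows, ZMod.card, ← pow_succ']
          exact Nat.pow_le_pow_right (by norm_num) (hT t.2)
      _ = 2 ^ (2 * s * Fintype.card T) := by
          rw [prod_const, card_univ, ← pow_mul]
      _ ≤ _ := Nat.pow_le_pow_right (by norm_num) (Nat.mul_le_mul_left _ hcard)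
  · intro x x' h y
    have h1 : ∀ t ∈ T, t ⬝ᵥ PP a b B x y = t ⬝ᵥ PP a b B x' y := by
      intro t ht
      have h2 := congrFun h ⟨t, ht⟩
      have h3 : aC a t x = aC a t x' := (Prod.ext_iff.1 h2).1
      have h4 : x ᵥ* BC B t = x' ᵥ* BC B t := congrArg Subtype.val (Prod.ext_iff.1 h2).2
      rw [dot_PP, dot_PP, h3, dotProduct_mulVec, dotProduct_mulVec, h4]
    have h2 : ∀ c ∈ Low B s, c ⬝ᵥ PP a b B x y = c ⬝ᵥ PP a b B x' y := by
      intro c hc
      unfold Low at hc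
      rw [← hspan] at hc
      induction hc using Submodule.span_induction with
      | mem t ht => exact h1 t ht
      | zero => simp
      | add u v _ _ hu hv => rw [add_dotProduct, add_dotProduct, hu, hv]
      | smul r u _ hu => rw [smul_dotProduct, smul_dotProduct, hu]
    apply bit_inj
    rw [← lo_add_hi g (Low B s), ← lo_add_hi g (Low B s), h0, h0, add_zero, add_zero]
    unfold lo
    refine sum_congr rfl fun c hc => ?_
    rw [h2 c (mem_filter.1 hc).2]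

end

end Pool.Agent.R111.LQ
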