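import Pool.Agent.R111.LQ.Basic

/-!
The trace inequality `⟨M, U⟩² ≤ rank(M) ‖U‖² ‖M‖_F²`.
-/

set_option autoImplicit false

namespace Pool.Agent.R111.LQ

open Finset Matrix

/-- an orthonormal basis of the row space -/
theorem exists_onb {X Y : Type*} [Fintype X] [Fintype Y] (M : Matrix X Y ℝ) :
    ∃ v : Fin M.rank → Y → ℝ, (∀ i, ∑ y, v i y ^ 2 = 1) ∧
      ∀ x y, M x y = ∑ i, (∑ y', M x y' * v i y') * v i y := by
  classical
  let L := (WithLp.linearEquiv 2 ℝ (Y → ℝ)).symm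
  let W : Submodule ℝ (EuclideanSpace ℝ Y) :=
    (Submodule.span ℝ (Set.range M.row)).map (L : (Y → ℝ) →ₗ[ℝ] EuclideanSpace ℝ Y)
  have hW : Module.finrank ℝ W = M.rank := by
    rw [Matrix.rank_eq_finrank_span_row]
    exact LinearEquiv.finrank_map_eq L _
  let b := (stdOrthonormalBasis ℝ W).reindex (finCongr hW)
  refine ⟨fun i y => (b i : EuclideanSpace ℝ Y) y, fun i => ?_, fun x y => ?_⟩
  · have h := b.orthonormal.1 i
    have h2 : ‖(b i : EuclideanSpace ℝ Y)‖ = 1 := by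
      rw [← h]; rfl
    have h3 := EuclideanSpace.norm_sq_eq (b i : EuclideanSpace ℝ Y)
    rw [h2] at h3
    simp only [Real.norm_eq_abs, sq_abs] at h3
    linarith
  · have hx : L (M x) ∈ W :=
      Submodule.mem_map_of_mem (Submodule.subset_span ⟨x, rfl⟩)
    have h := b.sum_repr' ⟨L (M x), hx⟩
    have h2 := congrArg (fun w : W => (w : EuclideanSpace ℝ Y) y) h
    simp only [Submodule.coe_sum, Submodule.coe_smul] at h2
    have h4 : (L (M x)) y = M x y := rfl
    rw [← h4, ← h2]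
    rw [show ((∑ i, (inner ℝ (b i) (⟨L (M x), hx⟩ : W)) • (b i : EuclideanSpace ℝ Y)) :
      EuclideanSpace ℝ Y) y = ∑ i, (inner ℝ (b i) (⟨L (M x), hx⟩ : W)) *
        (b i : EuclideanSpace ℝ Y) y by simp]
    refine sum_congr rfl fun i _ => ?_
    congr 1

theorem rank_ineq {X Y : Type*} [Fintype X] [Fintype Y] (M U : Matrix X Y ℝ) (Λ : ℝ)
    (hU : ∀ e : Y → ℝ, ∑ x, (∑ y, U x y * e y) ^ 2 ≤ Λ * ∑ y, e y ^ 2) :
    (∑ x, ∑ y, M x y * U x y) ^ 2 ≤ M.rank * Λ * ∑ x, ∑ y, M x y ^ 2 := by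
  classical
  obtain ⟨v, hv1, hv⟩ := exists_onb M
  have h1 : ∑ x, ∑ y, M x y * U x y =
      ∑ p : X × Fin M.rank, (∑ y', M p.1 y' * v p.2 y') * (∑ y, U p.1 y * v p.2 y) := by
    rw [Fintype.sum_prod_type]
    refine sum_congr rfl fun x _ => ?_
    have : ∀ y, M x y * U x y = ∑ i, (∑ y', M x y' * v i y') * v i y * U x y := by
      intro y
      rw [← sum_mul, ← hv x y]
    simp only [this]
    rw [sum_comm]
    refine sum_congr rfl fun i _ => ?_
    rw [mul_sum]
    refine sum_congr rfl fun y _ => ?_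
    ring
  have h2 : ∑ x, ∑ y, M x y ^ 2 =
      ∑ p : X × Fin M.rank, (∑ y', M p.1 y' * v p.2 y') ^ 2 := by
    rw [Fintype.sum_prod_type]
    refine sum_congr rfl fun x _ => ?_
    have : ∀ y, M x y ^ 2 = ∑ i, (∑ y', M x y' * v i y') * (v i y * M x y) := by
      intro y
      calc M x y ^ 2 = M x y * M x y := sq _
        _ = (∑ i, (∑ y', M x y' * v i y') * v i y) * M x y := by rw [← hv x y]
        _ = _ := by
          rw [sum_mul]
          refine sum_congr rfl fun i _ => ?_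
          ring
    simp only [this]
    rw [sum_comm]
    refine sum_congr rfl fun i _ => ?_
    rw [← mul_sum, sq]
    congr 1
    refine sum_congr rfl fun y _ => ?_
    ring
  have h3 : ∑ p : X × Fin M.rank, (∑ y, U p.1 y * v p.2 y) ^ 2 ≤ M.rank * Λ := by
    rw [Fintype.sum_prod_type, sum_comm]
    calc _ ≤ ∑ i : Fin M.rank, Λ := by
          refine sum_le_sum fun i _ => ?_
          have := hU (v i)
          rw [hv1, mul_one] at this
          exact this
      _ = M.rank * Λ := by simp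
  rw [h1, h2]
  calc _ ≤ (∑ p : X × Fin M.rank, (∑ y', M p.1 y' * v p.2 y') ^ 2) *
        ∑ p : X × Fin M.rank, (∑ y, U p.1 y * v p.2 y) ^ 2 := sum_mul_sq_le_sq_mul_sq _ _ _
    _ ≤ (∑ p : X × Fin M.rank, (∑ y', M p.1 y' * v p.2 y') ^ 2) * (M.rank * Λ) :=
        mul_le_mul_of_nonneg_left h3 (sum_nonneg fun _ _ => sq_nonneg _)
    _ = _ := by ring

end Pool.Agent.R111.LQ
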