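import Pool.Agent.R111.LQ.Fin

/-!
Sums of variables, and ranks of submatrices.
-/

set_option autoImplicit false

namespace Pool.Agent.R111.LQ

open Finset MvPolynomial

/-- `Q(x + y)` as a polynomial in `x` and `y` -/
theorem exists_sum_poly {n : ℕ} (Q : MvPolynomial (Fin n) (ZMod 2)) :
    ∃ P : MvPolynomial (Fin n ⊕ Fin n) (ZMod 2), P.totalDegree ≤ Q.totalDegree ∧
      ∀ x y, eval (Sum.elim x y) P = eval (x + y) Q := by
  classical
  refine ⟨∑ s ∈ Q.support, C (coeff s Q) *
    ∏ i ∈ s.support, (X (Sum.inl i) + X (Sum.inr i)) ^ s i, ?_, fun x y => ?_⟩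
  · refine totalDegree_finsetSum_le fun s hs => ?_
    refine (totalDegree_mul _ _).trans ?_
    rw [totalDegree_C, zero_add]
    refine (totalDegree_finsetProd _ _).trans ?_
    calc _ ≤ ∑ i ∈ s.support, s i := by
          refine sum_le_sum fun i _ => ?_
          refine (totalDegree_pow _ _).trans ?_
          have h : (X (Sum.inl i) + X (Sum.inr i) :
              MvPolynomial (Fin n ⊕ Fin n) (ZMod 2)).totalDegree ≤ 1 :=
            (totalDegree_add _ _).trans (max_le (by rw [totalDegree_X]) (by rw [totalDegree_X]))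
          calc _ ≤ s i * 1 := Nat.mul_le_mul_left _ h
            _ = s i := mul_one _
      _ ≤ _ := le_totalDegree hs
  · conv_rhs => rw [Q.as_sum]
    rw [map_sum, map_sum]
    refine sum_congr rfl fun s _ => ?_
    rw [eval_monomial, map_mul, eval_C, map_prod]
    congr 1
    rw [Finsupp.prod]
    refine prod_congr rfl fun i _ => ?_
    simp

theorem rank_submatrix {X Y X' Y' : Type*} [Fintype X] [Fintype Y] [Fintype X'] [Fintype Y']
    (A : Matrix X Y ℝ) (f : X' → X) (g : Y' → Y) : (A.submatrix f g).rank ≤ A.rank := by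
  classical
  have e : A.submatrix f g = ((1 : Matrix X X ℝ).submatrix f id * A) *
      (1 : Matrix Y Y ℝ).submatrix id g := by
    ext i j
    simp [Matrix.mul_apply, Matrix.one_apply, Matrix.submatrix_apply]
  rw [e]
  exact (Matrix.rank_mul_le_left _ _).trans (Matrix.rank_mul_le_right _ _)

end Pool.Agent.R111.LQ
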